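import Pool.Agent.H.MP_563097_lc.Defs
import Pool.Agent.Lib.helper25.RelGr

namespace Pool.Agent.H.MP_563097_lc

open Pool.Agent.Lib.CX Finset

variable {V : Type}

theorem op_iff (G : SimpleGraph V) (S : Finset V) :
    OpenPack G S ↔ ∀ u ∈ S, ∀ v ∈ S, u ≠ v → ∀ w, G.Adj u w → ¬G.Adj v w := by
  simp [OpenPack, Set.eq_empty_iff_forall_notMem]

theorem max_iff [DecidableEq V] (G : SimpleGraph V) (S : Finset V) : Maximal (OpenPack G) S ↔
    OpenPack G S ∧ ∀ v ∉ S, ∃ u ∈ S, ∃ w, G.Adj u w ∧ G.Adj v w := by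
  refine ⟨fun h => ⟨h.1, fun v hv => by_contra fun n => hv (h.2 (y := insert v S) ?_ (subset_insert _ _)
    (mem_insert_self _ _))⟩, fun ⟨h1, h2⟩ => ⟨h1, fun T hT e v hv => by_contra fun n => ?_⟩⟩
  · have := (op_iff G S).1 h.1
    rw [op_iff]
    simp only [forall_mem_insert]
    exact ⟨⟨by simp, fun u hu _ w a b => n ⟨u, hu, w, b, a⟩⟩, fun u hu => ⟨fun _ w a b => n ⟨u, hu, w, a, b⟩, this u hu⟩⟩
  · obtain ⟨u, hu, w, a, b⟩ := h2 v n
    exact (op_iff G T).1 hT u (e hu) v hv (by rintro rfl; exact n hu) w a b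

abbrev W := ℕ × ℕ × ℕ

def In (N m : ℕ) (p : W) : Prop :=
  (p.1 = 0 ∧ p.2.1 < N ∧ p.2.2 < 3) ∨ (p.1 = 1 ∧ p.2.1 ≤ m ∧ p.2.2 = 0) ∨
    ((p.1 = 2 ∨ p.1 = 3) ∧ p.2.1 < N ∧ p.2.2 < 2) ∨ (p.1 = 4 ∧ p.2.1 = 0 ∧ p.2.2 < 2)
def R (m : ℕ) (has : Prop) (p q : W) : Prop :=
  (p.1 = 0 ∧ q.1 = 2 ∧ p.2.1 = q.2.1 ∧ (q.2.2 = 0 ∨ p.2.2 = 2)) ∨ (p.1 = 0 ∧ q.1 = 3 ∧ p.2.1 = q.2.1 ∧ p.2.2 = q.2.2) ∨
    (p.1 = 1 ∧ q.1 = 4 ∧ (q.2.2 = 1 ∨ p.2.1 = m)) ∨ (p.1 = 1 ∧ q.1 = 3 ∧ (p.2.1 = m ∨ has))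
def cell (p : W) : ℕ × ℕ := (min p.1 3, if p.1 = 0 ∨ p.1 = 2 then p.2.1 else 0)

theorem wk {m P p q} (h : R m P p q) : R m True p q := by
  rcases h with h | h | h | h
  · exact .inl h
  · exact .inr (.inl h)
  · exact .inr (.inr (.inl h))
  · exact .inr (.inr (.inr ⟨h.1, h.2.1, .inr trivial⟩))

theorem smp' {N m u v w} (hu : In N m u) (hw : In N m w) (a : R m True u w ∨ R m True w u) (b : R m True v w ∨ R m True w v)
    (h : (v.1 = 0 ∧ v.2.2 = 2) ∨ (v.1 = 2 ∧ v.2.2 = 1) ∨ (v.1 = 4 ∧ v.2.2 = 0)) : cell u = cell v := by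
  simp only [R, In, cell, Prod.mk.injEq, or_true, and_true] at *
  split <;> split <;> omega

theorem main [Fintype V] (N m : ℕ) (hN : 0 < N) (has : ℕ → ℕ × ℕ → Prop) (G : SimpleGraph V) (g : V → W)
    (hg : Function.Injective g) (hT : ∀ p, In N m p ↔ ∃ u, g u = p)
    (hA : ∀ u v, G.Adj u v ↔ R m (has (g u).2.1 (g v).2) (g u) (g v) ∨ R m (has (g v).2.1 (g u).2) (g v) (g u)) :
    (∃ v : ℕ → Bool, ∀ j < m, ∃ x < N, has j (x, (v x).toNat)) ↔ ¬InC G := by
  classical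
  have hT' : ∀ u, In N m (g u) := fun u => (hT _).2 ⟨u, rfl⟩
  have : Nonempty V := ⟨((hT (4, 0, 0)).1 (by simp [In])).choose⟩
  choose! s hs using fun p => (hT p).1
  have a1 : ∀ u p, In N m p → (G.Adj u (s p) ↔ R m (has (g u).2.1 p.2) (g u) p ∨ R m (has p.2.1 (g u).2) p (g u)) :=
    fun u p hp => by rw [hA, hs p hp]
  have clq : ∀ u v, cell (g u) = cell (g v) → ∃ w, G.Adj u w ∧ G.Adj v w := fun u v e => by
    have h1 := hT' u
    have h2 := hT' v
    simp only [cell, Prod.mk.injEq] at e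
    rcases (by simp only [In] at h1; omega : (g u).1 = 0 ∨ (g u).1 = 1 ∨ (g u).1 = 2 ∨ 3 ≤ (g u).1) with h | h | h | h
    · refine ⟨s (2, (g u).2.1, 0), (a1 _ _ ?_).2 (.inl ?_), (a1 _ _ ?_).2 (.inl ?_)⟩ <;>
        simp only [In, R] at * <;> split at e <;> split at e <;> simp <;> omega
    · refine ⟨s (4, 0, 1), (a1 _ _ ?_).2 (.inl ?_), (a1 _ _ ?_).2 (.inl ?_)⟩ <;>
        simp only [In, R] at * <;> simp <;> omega
    · refine ⟨s (0, (g u).2.1, 2), (a1 _ _ ?_).2 (.inr ?_), (a1 _ _ ?_).2 (.inr ?_)⟩ <;>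
        simp only [In, R] at * <;> split at e <;> split at e <;> simp <;> omega
    · refine ⟨s (1, m, 0), (a1 _ _ ?_).2 (.inr ?_), (a1 _ _ ?_).2 (.inr ?_)⟩ <;>
        simp only [In, R] at * <;> simp <;> omega
  have inj : ∀ S, OpenPack G S → S.card = (S.image fun u => cell (g u)).card := fun S hS =>
    (card_image_of_injOn fun u hu v hv e => by_contra fun n =>
      let ⟨w, a, b⟩ := clq u v e; (op_iff G S).1 hS u hu v hv n w a b).symm
  have smp : ∀ u v w, G.Adj u w → G.Adj v w → ((g v).1 = 0 ∧ (g v).2.2 = 2) ∨ ((g v).1 = 2 ∧ (g v).2.2 = 1) ∨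
      ((g v).1 = 4 ∧ (g v).2.2 = 0) → cell (g u) = cell (g v) := fun u v w a b h => by
    rw [hA] at a b
    have := hT' w
    exact smp' (hT' u) this (a.imp wk wk) (b.imp wk wk) h
  have hit : ∀ S, Maximal (OpenPack G) S → ∀ u, (g u).1 ≠ 1 → cell (g u) ∈ S.image fun u => cell (g u) :=
    fun S hS u hu => by
    have h1 := hT' u
    obtain ⟨p, h2, h3, h4⟩ : ∃ p, In N m p ∧ cell p = cell (g u) ∧ ((p.1 = 0 ∧ p.2.2 = 2) ∨ (p.1 = 2 ∧ p.2.2 = 1) ∨
        (p.1 = 4 ∧ p.2.2 = 0)) := by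
      rcases (by simp only [In] at h1; omega : (g u).1 = 0 ∨ (g u).1 = 2 ∨ 3 ≤ (g u).1) with h | h | h
      · exact ⟨(0, (g u).2.1, 2), by simp only [In] at *; simp; omega, by simp [cell, h], by simp⟩
      · exact ⟨(2, (g u).2.1, 1), by simp only [In] at *; simp; omega, by simp [cell, h], by simp⟩
      · exact ⟨(4, 0, 0), by simp [In], by simp [cell]; omega, by simp⟩
    rw [← h3, ← hs p h2]
    by_cases e : s p ∈ S
    · exact mem_image_of_mem _ e
    · obtain ⟨v, hv, w, a, b⟩ := ((max_iff G S).1 hS).2 _ e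
      exact mem_image.2 ⟨v, hv, smp _ _ w a b (by rwa [hs p h2])⟩
  have c1 : ∀ u, cell (g u) = (1, 0) ↔ (g u).1 = 1 := fun u => by
    simp only [cell, Prod.mk.injEq]; split <;> omega
  have sub : ∀ S T : Finset V, Maximal (OpenPack G) T → ((∃ u ∈ S, (g u).1 = 1) → ∃ u ∈ T, (g u).1 = 1) →
      (S.image fun u => cell (g u)) ⊆ T.image fun u => cell (g u) := fun S T h1 h2 =>
    image_subset_iff.2 fun u hu => by
      by_cases e : (g u).1 = 1
      · obtain ⟨v, hv, e'⟩ := h2 ⟨u, hu, e⟩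
        exact mem_image.2 ⟨v, hv, by rw [(c1 _).2 e, (c1 _).2 e']⟩
      · exact hit T h1 u e
  have ext : ∀ S, OpenPack G S → ∃ T, S ⊆ T ∧ Maximal (OpenPack G) T := fun S hS => Finite.exists_le_maximal hS
  obtain ⟨S, h1, h2⟩ := ext {s (1, m, 0)} (by simp [OpenPack])
  have h3 : ∃ u ∈ S, (g u).1 = 1 := ⟨_, h1 (mem_singleton_self _), by rw [hs _ (by simp [In])]⟩
  constructor
  · rintro ⟨v, hv⟩ h
    have i1 : ∀ x < N, In N m (0, x, (v x).toNat) := fun x hx => by cases v x <;> simp [In, hx]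
    obtain ⟨T, h4, h5⟩ := ext ((range N).image fun x => s (0, x, (v x).toNat)) ((op_iff _ _).2 (by
      simp only [forall_mem_image, mem_range]
      intro x hx y hy n w a b
      rw [G.adj_comm, a1 _ _ (i1 _ ‹_›)] at a b
      have : x ≠ y := by rintro rfl; exact n rfl
      simp [R] at a b
      omega))
    have h6 : ∀ u ∈ T, (g u).1 ≠ 1 := fun u hu e => by
      have h7 := hT' u
      obtain ⟨x, hx, h8⟩ : ∃ x < N, (g u).2.1 = m ∨ has (g u).2.1 (x, (v x).toNat) := by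
        by_cases q : (g u).2.1 = m
        · exact ⟨0, hN, .inl q⟩
        · exact let ⟨x, a, b⟩ := hv (g u).2.1 (by simp only [In] at h7; omega); ⟨x, a, .inr b⟩
      have i2 : In N m (3, x, (v x).toNat) := by cases v x <;> simp [In, hx]
      refine (op_iff _ _).1 h5.1 u hu _ (h4 (mem_image_of_mem _ (mem_range.2 hx))) ?_ (s (3, x, (v x).toNat))
        ((a1 _ _ i2).2 (.inl (by simp [R, e, h8]))) ((a1 _ _ i2).2 (.inl (by simp [R, hs _ (i1 x hx)])))
      rintro rfl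
      simp [hs _ (i1 x hx)] at e
    have := h S T h2 h5
    rw [inj S h2.1, inj T h5.1] at this
    obtain ⟨u, hu, e⟩ := h3
    have := eq_of_subset_of_card_le (sub T S h2 fun _ => ⟨u, hu, e⟩) this.le ▸ mem_image_of_mem _ hu
    obtain ⟨w, hw, e'⟩ := mem_image.1 this
    exact h6 w hw ((c1 _).1 (e'.trans ((c1 _).2 e)))
  · intro h
    obtain ⟨T, h4, h5⟩ : ∃ T, Maximal (OpenPack G) T ∧ ¬∃ u ∈ T, (g u).1 = 1 := by
      by_contra! n
      exact h fun A B hA hB => by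
        rw [inj A hA.1, inj B hB.1, Subset.antisymm (sub A B hB fun _ => n B hB) (sub B A hA fun _ => n A hA)]
    refine ⟨fun x => decide (s (0, x, 1) ∈ T), fun j hj => ?_⟩
    have i1 : In N m (1, j, 0) := by simp [In, hj.le]
    obtain ⟨u, hu, w, a, b⟩ := ((max_iff G T).1 h4).2 (s (1, j, 0)) fun e => h5 ⟨_, e, by rw [hs _ i1]⟩
    have n1 : (g u).1 ≠ 1 := fun e => h5 ⟨u, hu, e⟩
    rw [G.adj_comm, a1 _ _ i1] at b
    rw [hA] at a
    have h6 := hT' w
    simp [R, hj.ne, n1] at a b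
    simp only [In] at h6
    obtain ⟨b1, b2⟩ := b.resolve_left (by omega)
    have e : g u = (0, (g w).2) := by simp only [Prod.ext_iff]; omega
    have e2 : u = s (0, (g w).2) := hg (by rw [← e, hs _ (hT' u)])
    refine ⟨(g w).2.1, by omega, ?_⟩
    rcases (by omega : (g w).2.2 = 0 ∨ (g w).2.2 = 1) with q | q
    · have i2 : In N m (0, (g w).2.1, 1) := by simp [In]; omega
      have : s (0, (g w).2.1, 1) ∉ T := fun k => by
        obtain ⟨z, c, d⟩ := clq u (s (0, (g w).2.1, 1)) (by simp [hs _ i2, e, cell])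
        refine (op_iff _ _).1 h4.1 u hu _ k (fun k => ?_) z c d
        have := congrArg g k
        simp [hs _ i2, e, Prod.ext_iff, q] at this
      simp only [this, decide_false, Bool.toNat_false]
      rwa [← q]
    · have : s (0, (g w).2.1, 1) ∈ T := by rwa [← q, ← e2]
      simp only [this, decide_true, Bool.toNat_true]
      rwa [← q]

def lits (C : Cl3 ℕ) : List (ℕ × ℕ) := [(C.1.1, C.1.2.toNat), (C.2.1.1, C.2.1.2.toNat), (C.2.2.1, C.2.2.2.toNat)]
def has (φ : List (Cl3 ℕ)) (j : ℕ) (l : ℕ × ℕ) : Prop := l ∈ lits (φ.getD j (unit 0 true))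
instance (N m p) : Decidable (In N m p) := by unfold In; infer_instance
instance (φ j l) : Decidable (has φ j l) := by unfold has; infer_instance
instance (m P p q) [Decidable P] : Decidable (R m P p q) := by unfold R; infer_instance
def vs (φ : List (Cl3 ℕ)) : List W :=
  (List.range 5 ×ˢ List.range (3 * φ.length + 1) ×ˢ List.range 3).filter fun p => In (3 * φ.length + 1) φ.length p
def gr (φ : List (Cl3 ℕ)) : Gr := relGr (vs φ) fun e => R φ.length (has φ e.1.2.1 e.2.2) e.1 e.2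

theorem mem_vs {φ} {p : W} : p ∈ vs φ ↔ In (3 * φ.length + 1) φ.length p := by
  obtain ⟨x, y, z⟩ := p
  simp only [vs, List.mem_filter, decide_eq_true_eq, and_iff_right_iff_imp, In]
  exact fun h => List.pair_mem_product.2 ⟨List.mem_range.2 (by omega),
    List.pair_mem_product.2 ⟨List.mem_range.2 (by omega), List.mem_range.2 (by omega)⟩⟩

set_option synthInstance.maxSize 2000 in
theorem hard : NPHard fun a : Gr => ¬InC a.G := by
  refine NPHard.of_sat3 gr (by unfold gr relGr vs In R has lits; fun_prop) fun φ hφ => ?_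
  rw [← main (3 * φ.length + 1) φ.length (by omega) (has φ) (gr φ).G (relNm _ _) (relNm_inj _ _)
    (fun p => mem_vs.symm.trans (relNm_range _ _ p)) fun u v => (relGr_adj _ _ u v).trans (by
      simp only [decide_eq_true_eq, and_iff_right_iff_imp, R, ne_eq, Prod.ext_iff]; omega)]
  refine exists_congr fun v => ⟨fun h j hj => ?_, fun h C hC => ?_⟩
  · have h1 := h _ (List.getElem_mem hj)
    have h2 := hφ _ (List.getElem_mem hj)
    simp only [has, List.getD_eq_getElem _ _ hj, lits, Cl3.vars, List.forall_mem_cons, Cl3.ok] at h1 h2 ⊢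
    rcases h1 with h1 | h1 | h1
    · exact ⟨_, h2.1.trans (lt_add_one _), by simp [h1]⟩
    · exact ⟨_, h2.2.1.trans (lt_add_one _), by simp [h1]⟩
    · exact ⟨_, h2.2.2.1.trans (lt_add_one _), by simp [h1]⟩
  · obtain ⟨j, hj, rfl⟩ := List.getElem_of_mem hC
    obtain ⟨x, -, h1⟩ := h j hj
    have : ∀ a b : Bool, a.toNat = b.toNat → a = b := by decide
    simp only [has, List.getD_eq_getElem _ _ hj, lits, List.mem_cons, Prod.mk.injEq, List.not_mem_nil, or_false] at h1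
    rcases h1 with ⟨rfl, h1⟩ | ⟨rfl, h1⟩ | ⟨rfl, h1⟩
    · exact .inl (this _ _ h1)
    · exact .inr (.inl (this _ _ h1))
    · exact .inr (.inr (this _ _ h1))

def chk (a : Gr) (S : List ℕ) : Prop :=
  S.Nodup ∧ (∀ u ∈ S, u < a.n) ∧
    (∀ u ∈ S, ∀ v ∈ S, ∀ w ∈ List.range a.n, u = v ∨ ¬(a.adjB u w = true ∧ a.adjB v w = true)) ∧
    ∀ v ∈ List.range a.n, v ∈ S ∨ ∃ u ∈ S, ∃ w ∈ List.range a.n, a.adjB u w = true ∧ a.adjB v w = true
instance (a S) : Decidable (chk a S) := by unfold chk; infer_instance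

theorem chk_iff (a : Gr) (k : ℕ) :
    (∃ S, chk a S ∧ S.length = k) ↔ ∃ S, Maximal (OpenPack a.G) S ∧ S.card = k := by
  simp only [max_iff, op_iff, ← a.adjB_iff]
  constructor
  · rintro ⟨S, ⟨h1, h2, h3, h4⟩, rfl⟩
    refine ⟨univ.filter fun i => i.1 ∈ S, ⟨fun u hu v hv n w p q => ?_, fun v hv => ?_⟩, ?_⟩
    · exact (h3 u (by simpa using hu) v (by simpa using hv) w (by simp)).elim (fun e => n (Fin.ext e)) fun e => e ⟨p, q⟩
    · obtain ⟨u, hu, w, hw, p⟩ := (h4 v (by simp)).resolve_left (by simpa using hv)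
      exact ⟨⟨u, h2 u hu⟩, by simpa using hu, ⟨w, by simpa using hw⟩, p⟩
    · rw [← List.toFinset_card_of_nodup h1]
      exact card_bij (fun i _ => i.1) (by simp) (fun _ _ _ _ => Fin.ext) fun u hu =>
        ⟨⟨u, h2 u (by simpa using hu)⟩, by simpa using hu, rfl⟩
  · rintro ⟨S, ⟨h1, h2⟩, rfl⟩
    refine ⟨S.toList.map Fin.val, ⟨S.nodup_toList.map Fin.val_injective, by simp, ?_, fun v hv => ?_⟩, by simp⟩
    · simp only [List.forall_mem_map, mem_toList, List.mem_range]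
      intro u hu v hv w hw
      by_cases e : u = v
      · exact .inl (by rw [e])
      · exact .inr fun ⟨p, q⟩ => h1 u hu v hv e ⟨w, hw⟩ p q
    · by_cases e : (⟨v, List.mem_range.1 hv⟩ : Fin a.n) ∈ S
      · exact .inl (List.mem_map.2 ⟨_, mem_toList.2 e, rfl⟩)
      · obtain ⟨u, hu, w, p⟩ := h2 _ e
        exact .inr ⟨u, by simpa [Fin.val_inj] using hu, w, by simp, p⟩

set_option synthInstance.maxSize 2000 in
theorem inNP : InNP fun a : Gr => ¬InC a.G := by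
  refine InNP.of_cert' (fun a (c : List ℕ × List ℕ) => chk a c.1 ∧ chk a c.2 ∧ c.1.length ≠ c.2.length)
    (fun a => 2 * (a.n * (3 * a.n + 3) + 2) + 1) (by unfold chk; fun_prop) (by fun_prop) ?_ fun a h => ?_
  · rintro a ⟨S, T⟩ ⟨h1, h2, h3⟩ h
    obtain ⟨S', a1, a2⟩ := (chk_iff a _).1 ⟨S, h1, rfl⟩
    obtain ⟨T', b1, b2⟩ := (chk_iff a _).1 ⟨T, h2, rfl⟩
    exact h3 (by rw [← a2, ← b2, h S' T' a1 b1])
  · simp only [InC, not_forall] at h
    obtain ⟨S, T, h1, h2, h3⟩ := h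
    obtain ⟨S', a1, a2⟩ := (chk_iff a _).2 ⟨S, h1, rfl⟩
    obtain ⟨T', b1, b2⟩ := (chk_iff a _).2 ⟨T, h2, rfl⟩
    have sz : ∀ (S : Finset (Fin a.n)) S', chk a S' → S'.length = S.card → size S' ≤ a.n * (3 * a.n + 3) + 2 := by
      intro S S' h e
      have := S.card_le_univ
      refine (size_list_le (B := 3 * a.n + 2) fun x hx => (size_nat_le x).trans ?_).trans ?_
      · have := h.2.1 x hx; omega
      · simp only [Fintype.card_fin] at this
        exact Nat.add_le_add_right (Nat.mul_le_mul_right _ (e ▸ this)) _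
    refine ⟨(S', T'), ?_, a1, b1, by simpa [a2, b2] using h3⟩
    have := sz S S' a1 a2
    have := sz T T' b1 b2
    rw [size_pair]; omega

end Pool.Agent.H.MP_563097_lc
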