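import Pool.Agent.Lib.lead.CXGraph

namespace Pool.Agent.H.MP_563097_lc

variable {V : Type}

/-- open packing: distinct members have disjoint open neighbourhoods -/
def OpenPack (G : SimpleGraph V) (S : Finset V) : Prop :=
  ∀ u ∈ S, ∀ v ∈ S, u ≠ v → G.neighborSet u ∩ G.neighborSet v = ∅

/-- all maximal open packings have the same cardinality -/
def InC (G : SimpleGraph V) : Prop :=
  ∀ S T : Finset V, Maximal (OpenPack G) S → Maximal (OpenPack G) T → S.card = T.card

end Pool.Agent.H.MP_563097_lc
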